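import Pool.Agent.Helper48.FB.Defs
import Pool.Agent.Helper53.WR.Numeric

/-!
# FB-8 (A7a, A7c): two expected values
-/

set_option autoImplicit false

namespace Pool.Agent.Helper41.FB

open Finset
open Pool.Agent.Helper53.WR
open Pool.Agent.Helper48.FB

lemma dens_le_of_log {L x l : ℕ} (hx : 2 ^ l ≤ x) : dens L x ≤ 4 * √L / 2 ^ (l / 2) := by
  have hpos : (0 : ℝ) < 2 ^ (l / 2) := by positivity
  have h1 : ((2 : ℝ) ^ (l / 2)) ^ 2 ≤ x + 1 := by
    have : (2 ^ (l / 2)) ^ 2 ≤ x + 1 := by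
      rw [← pow_mul]
      calc 2 ^ (l / 2 * 2) ≤ 2 ^ l := Nat.pow_le_pow_right (by norm_num) (by omega)
        _ ≤ x + 1 := by omega
    exact_mod_cast this
  calc dens L x ≤ √(16 * L / (x + 1)) := min_le_right _ _
    _ ≤ √(16 * L / ((2 : ℝ) ^ (l / 2)) ^ 2) := by
        apply Real.sqrt_le_sqrt
        apply div_le_div_of_nonneg_left (by positivity) (by positivity) h1
    _ = 4 * √L / 2 ^ (l / 2) := by
        rw [show (16 * (L : ℝ) / ((2 : ℝ) ^ (l / 2)) ^ 2) = (4 / 2 ^ (l / 2)) ^ 2 * L by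
          field_simp; ring, Real.sqrt_mul (by positivity), Real.sqrt_sq (by positivity)]
        ring

/-- A sum of densities over `x` with `n - x ∈ O`, bounded by the number of terms. -/
lemma sum_dens_le (F : Finset ℕ) (L z n N : ℕ) (O : Finset ℕ)
    (hP : ∀ x ∈ F, 2 ^ z ≤ x ∧ x ≤ n ∧ n - x ∈ O) (hO : O.card ≤ N) :
    ∑ x ∈ F, dens L x ≤ N * (4 * √L / 2 ^ (z / 2)) := by
  have hc : F.card ≤ N := by
    refine le_trans ?_ hO
    apply card_le_card_of_injOn (fun x => n - x)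
    · intro x hx
      exact (hP x hx).2.2
    · intro x hx y hy hxy
      have h1 := (hP x hx).2.1
      have h2 := (hP y hy).2.1
      simp only at hxy
      omega
  calc ∑ x ∈ F, dens L x ≤ ∑ x ∈ F, (4 * √L / 2 ^ (z / 2)) := by
        apply sum_le_sum
        intro x hx
        exact dens_le_of_log (hP x hx).1
    _ = F.card * (4 * √L / 2 ^ (z / 2)) := by
        rw [sum_const, nsmul_eq_mul]
    _ ≤ N * (4 * √L / 2 ^ (z / 2)) := by
        apply mul_le_mul_of_nonneg_right (by exact_mod_cast hc) (by positivity)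

/-- The first mean value, in terms of the tower inequalities only. -/
theorem mean_O' {a u e t κ f : ℕ → ℕ} (h : Tow a u e t κ f) (k n : ℕ) (O : Finset ℕ)
    (hO : ∀ o ∈ O, o < 2 ^ (4 * a k + 8 * u k)) (hr : ∀ n, repF O n ≤ 4 * Cs * a k) :
    ∑ x ∈ (range (2 ^ LR a u e k)).filter (fun x => 2 ^ zR a u k ≤ x ∧ x ≤ n ∧ n - x ∈ O),
      dens (LR a u e k) x ≤ 2 ^ 49 * a k := by
  have he := h.e300 k
  have heu := h.eu k
  have hua := h.ua k
  obtain ⟨M, hM⟩ : ∃ M, M = 2 * a k + 4 * u k - 12 := ⟨_, rfl⟩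
  have hz : zR a u k = 2 * M := by simp only [zR]; omega
  have h4 : 4 * a k + 8 * u k = 2 * M + 24 := by omega
  have hLR5 : LR a u e k ≤ 5 * a k := by simp only [LR, thT]; omega
  have hsq := card_sq_le O _ _ hO hr
  rw [h4] at hsq
  refine le_trans (sum_dens_le _ (LR a u e k) (zR a u k) n O.card O
    (fun x hx => (mem_filter.mp hx).2) le_rfl) ?_
  rw [hz, show 2 * M / 2 = M by omega]
  have hCs : (Cs : ℝ) = 2 ^ 64 := by
    unfold Cs
    rw [Nat.cast_pow, Nat.cast_ofNat]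
  have hsqR : (O.card : ℝ) ^ 2 ≤ 2 ^ (2 * M + 24 + 1) * (4 * 2 ^ 64 * a k) := by
    rw [← hCs]
    exact_mod_cast hsq
  have hLRR : (LR a u e k : ℝ) ≤ 5 * a k := by exact_mod_cast hLR5
  have h0 : (0 : ℝ) ≤ 2 ^ 49 * (a k : ℝ) :=
    mul_nonneg (by norm_num) (Nat.cast_nonneg _)
  refine le_of_sq_le_sq ?_ h0
  rw [mul_pow, div_pow, mul_pow, Real.sq_sqrt (by positivity), mul_pow]
  have hpow : (0 : ℝ) < (2 : ℝ) ^ M := by positivity
  calc (O.card : ℝ) ^ 2 * (4 ^ 2 * (LR a u e k : ℝ) / (2 ^ M) ^ 2)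
      ≤ (2 ^ (2 * M + 24 + 1) * (4 * 2 ^ 64 * a k)) * (4 ^ 2 * (5 * a k) / (2 ^ M) ^ 2) := by
        gcongr
    _ = 2 ^ 95 * 5 * (a k : ℝ) ^ 2 := by
        rw [pow_add, pow_add, pow_mul']
        field_simp
        norm_num
        try ring
    _ ≤ (2 ^ 49) ^ 2 * (a k : ℝ) ^ 2 := by
        apply mul_le_mul_of_nonneg_right (by norm_num) (by positivity)

/-- FB-A7a -/
theorem mean_O {a u e t κ w : ℕ → ℕ} (h : FTow a u e t κ w) (k n : ℕ) (O : Finset ℕ)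
    (hO : ∀ o ∈ O, o < 2 ^ (4 * a k + 8 * u k)) (hr : ∀ n, repF O n ≤ 4 * Cs * a k) :
    ∑ x ∈ (range (2 ^ LR a u e k)).filter (fun x => 2 ^ zR a u k ≤ x ∧ x ≤ n ∧ n - x ∈ O),
      dens (LR a u e k) x ≤ 2 ^ 49 * a k :=
  mean_O' h.tow k n O hO hr

/-- FB-A7c -/
theorem mean_far {a u e t κ w : ℕ → ℕ} (h : FTow a u e t κ w) (k n : ℕ) (W : Finset ℕ)
    (hn : 2 ^ (4 * a k + thT u e k + 128 * e k) ≤ n)
    (hfar : ∀ y, 2 ^ (4 * a k + thT u e k + 127 * e k) ≤ y →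
      (win W y (2 ^ (4 * a k + thT u e k + 12))).card ≤ 2 ^ (2 * a k + 4 * u k - 10 * e k)) :
    ∑ x ∈ (range (2 ^ LR a u e k)).filter (fun x => 2 ^ zR a u k ≤ x ∧ x ≤ n ∧ n - x ∈ W),
      dens (LR a u e k) x ≤ 1 / 2 ^ (8 * e k) := by
  have he := h.tow.e300 k
  have heu := h.tow.eu k
  have hua := h.tow.ua k
  have h20 := h.tow.h20 k
  have hLR5 : LR a u e k ≤ 5 * a k := by simp only [LR, thT]; omega
  have hLe : LR a u e k ≤ 2 ^ e k := by omega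
  have hLRw : LR a u e k = 4 * a k + thT u e k + 12 := rfl
  obtain ⟨y, hy⟩ : ∃ y, y = n + 1 - 2 ^ (LR a u e k) := ⟨_, rfl⟩
  have hbig : 2 ^ (4 * a k + thT u e k + 127 * e k) + 2 ^ (LR a u e k) ≤ n := by
    have h1 : 2 ^ (LR a u e k) ≤ 2 ^ (4 * a k + thT u e k + 127 * e k) :=
      Nat.pow_le_pow_right (by norm_num) (by rw [hLRw]; omega)
    have h2 : 2 * 2 ^ (4 * a k + thT u e k + 127 * e k) ≤
        2 ^ (4 * a k + thT u e k + 128 * e k) := by
      rw [← pow_succ']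
      exact Nat.pow_le_pow_right (by norm_num) (by omega)
    omega
  have hc := hfar y (by omega)
  refine le_trans (sum_dens_le _ (LR a u e k) (zR a u k) n
    (2 ^ (2 * a k + 4 * u k - 10 * e k)) (win W y (2 ^ (LR a u e k))) (fun x hx => ?_) hc) ?_
  · have hx1 := (mem_filter.mp hx).2
    have hx2 := mem_range.mp (mem_filter.mp hx).1
    refine ⟨hx1.1, hx1.2.1, ?_⟩
    rw [win, mem_filter]
    refine ⟨hx1.2.2, ?_, ?_⟩
    · rw [hy]
      have := hx1.2.1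
      omega
    · rw [hy]
      have := hx1.2.1
      omega
  have hzz : zR a u k / 2 = 2 * a k + 4 * u k - 12 := by simp only [zR]; omega
  rw [hzz]
  obtain ⟨m, hm⟩ : ∃ m, m = 2 * a k + 4 * u k - 10 * e k := ⟨_, rfl⟩
  rw [← hm, show 2 * a k + 4 * u k - 12 = m + 10 * e k - 12 by omega]
  have hsqrt : √(LR a u e k : ℝ) ≤ 2 ^ e k := by
    rw [Real.sqrt_le_left (by positivity)]
    have h1 : (LR a u e k : ℝ) ≤ 2 ^ e k := by exact_mod_cast hLe
    have h2 : (1 : ℝ) ≤ 2 ^ e k := one_le_pow₀ (by norm_num)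
    nlinarith
  have hpow : (2 : ℝ) ^ (m + 10 * e k - 12) * 2 ^ 12 = 2 ^ m * 2 ^ (10 * e k) := by
    rw [← pow_add, ← pow_add]
    congr 1
    omega
  push_cast
  rw [mul_div_assoc', div_le_div_iff₀ (by positivity) (by positivity)]
  have h14 : (2 : ℝ) ^ 14 * 2 ^ e k * 2 ^ (8 * e k) ≤ 2 ^ (10 * e k) := by
    rw [← pow_add, ← pow_add]
    exact pow_le_pow_right₀ (by norm_num) (by omega)
  have hm0 : (0 : ℝ) < 2 ^ m := by positivity
  have key : (2 : ℝ) ^ m * (4 * √(LR a u e k : ℝ)) * 2 ^ (8 * e k) * 2 ^ 12 ≤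
      1 * 2 ^ (m + 10 * e k - 12) * 2 ^ 12 := by
    rw [one_mul, hpow]
    calc (2 : ℝ) ^ m * (4 * √(LR a u e k : ℝ)) * 2 ^ (8 * e k) * 2 ^ 12
        ≤ (2 : ℝ) ^ m * (4 * 2 ^ e k) * 2 ^ (8 * e k) * 2 ^ 12 := by gcongr
      _ = 2 ^ m * (2 ^ 14 * 2 ^ e k * 2 ^ (8 * e k)) := by ring
      _ ≤ 2 ^ m * 2 ^ (10 * e k) := by gcongr
  exact le_of_mul_le_mul_right key (by norm_num)

end Pool.Agent.Helper41.FB
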